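import Mathlib

/-!
Perron formula for the weight `log_+ (x / n)`, on the line `Re s = c`, `c ≥ 1`.
-/

set_option autoImplicit false

open MeasureTheory Complex Filter Topology Set
open scoped Real FourierTransform

namespace Pool.Agent.H379R2.SW

lemma u_exp_le {c u : ℝ} (hc : 0 < c) :
    u * Real.exp (-(c * u)) ≤ (2 / c) * Real.exp (-(c / 2) * u) := by
  have h1 : c / 2 * u ≤ Real.exp (c / 2 * u) := by
    have := Real.add_one_le_exp (c / 2 * u); linarith
  have h2 : u ≤ (2 / c) * Real.exp (c / 2 * u) := by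
    calc u = (2 / c) * (c / 2 * u) := by field_simp
      _ ≤ (2 / c) * Real.exp (c / 2 * u) := mul_le_mul_of_nonneg_left h1 (by positivity)
  calc u * Real.exp (-(c * u)) ≤ ((2 / c) * Real.exp (c / 2 * u)) * Real.exp (-(c * u)) :=
        mul_le_mul_of_nonneg_right h2 (Real.exp_pos _).le
    _ = (2 / c) * Real.exp (-(c / 2) * u) := by
        rw [mul_assoc, ← Real.exp_add]; ring_nf

lemma integrableOn_u_exp {a : ℂ} (ha : 0 < a.re) :
    IntegrableOn (fun u : ℝ => (u : ℂ) * cexp (-(a * u))) (Ioi 0) := by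
  have h := (exp_neg_integrableOn_Ioi 0 (half_pos ha)).const_mul (2 / a.re)
  refine Integrable.mono' h ?_ ?_
  · apply Continuous.aestronglyMeasurable
    fun_prop
  · refine (ae_restrict_iff' measurableSet_Ioi).mpr (Eventually.of_forall (fun u hu => ?_))
    rw [norm_mul, Complex.norm_real, Complex.norm_exp, Real.norm_of_nonneg (le_of_lt hu)]
    have : (-(a * (u : ℂ))).re = -(a.re * u) := by simp
    rw [this]
    exact u_exp_le ha

lemma integral_u_exp {a : ℂ} (ha : 0 < a.re) :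
    ∫ u in Ioi (0 : ℝ), (u : ℂ) * cexp (-(a * u)) = 1 / a ^ 2 := by
  have ha0 : a ≠ 0 := by
    intro h; rw [h] at ha; simp at ha
  have h := integral_Ioi_of_hasDerivAt_of_tendsto' (a := 0)
    (f := fun u : ℝ => -((u : ℂ) / a + 1 / a ^ 2) * cexp (-(a * u)))
    (f' := fun u : ℝ => (u : ℂ) * cexp (-(a * u))) (m := 0) ?_ (integrableOn_u_exp ha) ?_
  · rw [h]
    simp
  · intro u _
    have h1 : HasDerivAt (fun u : ℝ => (u : ℂ)) 1 u := Complex.ofRealCLM.hasDerivAt
    have h2 : HasDerivAt (fun u : ℝ => -((u : ℂ) / a + 1 / a ^ 2)) (-(1 / a)) u :=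
      ((h1.div_const a).add_const _).neg
    have h3 : HasDerivAt (fun u : ℝ => cexp (-(a * u))) (cexp (-(a * u)) * (-(a * 1))) u :=
      ((h1.const_mul a).neg).cexp
    have h4 := h2.mul h3
    refine h4.congr_deriv ?_
    field_simp
    ring
  · have h1 : Tendsto (fun u : ℝ => ((‖a‖⁻¹ * (2 / a.re) + ‖1 / a ^ 2‖) *
        Real.exp (-(a.re / 2) * u))) atTop (𝓝 0) := by
      rw [← mul_zero (‖a‖⁻¹ * (2 / a.re) + ‖1 / a ^ 2‖)]
      apply Tendsto.const_mul
      have h2 : Tendsto (fun u : ℝ => a.re / 2 * u) atTop atTop :=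
        tendsto_id.const_mul_atTop (by linarith)
      have h3 := Real.tendsto_exp_neg_atTop_nhds_zero.comp h2
      refine h3.congr (fun u => ?_)
      simp only [Function.comp]
      congr 1; ring
    refine squeeze_zero_norm' ?_ h1
    filter_upwards [eventually_ge_atTop (0 : ℝ)] with u hu
    rw [norm_mul, norm_neg, Complex.norm_exp]
    have e1 : (-(a * (u : ℂ))).re = -(a.re * u) := by simp
    rw [e1]
    have h2 := u_exp_le (c := a.re) (u := u) ha
    have h3 : Real.exp (-(a.re * u)) ≤ Real.exp (-(a.re / 2) * u) := by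
      apply Real.exp_le_exp.mpr
      nlinarith
    calc ‖(u : ℂ) / a + 1 / a ^ 2‖ * Real.exp (-(a.re * u))
        ≤ (‖(u : ℂ) / a‖ + ‖1 / a ^ 2‖) * Real.exp (-(a.re * u)) :=
          mul_le_mul_of_nonneg_right (norm_add_le _ _) (Real.exp_pos _).le
      _ = ‖a‖⁻¹ * (u * Real.exp (-(a.re * u))) + ‖1 / a ^ 2‖ * Real.exp (-(a.re * u)) := by
          rw [norm_div, Complex.norm_real, Real.norm_of_nonneg hu]; ring
      _ ≤ ‖a‖⁻¹ * ((2 / a.re) * Real.exp (-(a.re / 2) * u)) +
          ‖1 / a ^ 2‖ * Real.exp (-(a.re / 2) * u) := by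
          apply add_le_add
          · exact mul_le_mul_of_nonneg_left h2 (by positivity)
          · exact mul_le_mul_of_nonneg_left h3 (by positivity)
      _ = _ := by ring

/-- the point `c + 2 π ξ i` -/
noncomputable def vert (c ξ : ℝ) : ℂ := (c : ℂ) + ((2 * π * ξ : ℝ) : ℂ) * I

lemma vert_re (c ξ : ℝ) : (vert c ξ).re = c := by simp [vert]

lemma vert_im (c ξ : ℝ) : (vert c ξ).im = 2 * π * ξ := by simp [vert]

lemma vert_ne_zero {c : ℝ} (hc : 0 < c) (ξ : ℝ) : vert c ξ ≠ 0 := by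
  intro h
  have := vert_re c ξ
  rw [h] at this
  simp at this
  linarith

lemma continuous_vert (c : ℝ) : Continuous (vert c) := by
  unfold vert
  fun_prop

lemma norm_vert_sq_ge {c : ℝ} (hc : 1 ≤ c) (ξ : ℝ) : 1 + ξ ^ 2 ≤ ‖vert c ξ‖ ^ 2 := by
  rw [Complex.sq_norm, Complex.normSq_apply, vert_re, vert_im]
  have hpi : 3 < π := Real.pi_gt_three
  have h1 : (2 * π * ξ) * (2 * π * ξ) = (2 * π) ^ 2 * ξ ^ 2 := by ring
  rw [h1]
  have h2 : 1 ≤ (2 * π) ^ 2 := by nlinarith
  have h3 : 0 ≤ ξ ^ 2 := by positivity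
  nlinarith

lemma inv_norm_vert_sq_le {c : ℝ} (hc : 1 ≤ c) (ξ : ℝ) :
    (‖vert c ξ‖ ^ 2)⁻¹ ≤ (1 + ξ ^ 2)⁻¹ :=
  inv_anti₀ (by positivity) (norm_vert_sq_ge hc ξ)

lemma integrable_inv_norm_vert_sq {c : ℝ} (hc : 1 ≤ c) :
    Integrable (fun ξ : ℝ => (‖vert c ξ‖ ^ 2)⁻¹) := by
  refine Integrable.mono' integrable_inv_one_add_sq ?_ ?_
  · apply Continuous.aestronglyMeasurable
    apply Continuous.inv₀
    · exact (continuous_vert c).norm.pow 2
    · intro ξ
      have := norm_pos_iff.mpr (vert_ne_zero (by linarith : 0 < c) ξ)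
      positivity
  · refine Eventually.of_forall (fun ξ => ?_)
    rw [Real.norm_of_nonneg (by positivity)]
    exact inv_norm_vert_sq_le hc ξ

/-- Fourier transform of `max u 0 * exp (-c u)` -/
lemma fourier_phi {c : ℝ} (hc : 0 < c) (ξ : ℝ) :
    𝓕 (fun u : ℝ => (((max u 0 * Real.exp (-(c * u)) : ℝ)) : ℂ)) ξ = 1 / (vert c ξ) ^ 2 := by
  rw [Real.fourier_real_eq_integral_exp_smul]
  rw [← integral_u_exp (a := vert c ξ) (by rw [vert_re]; exact hc),
    ← integral_indicator measurableSet_Ioi]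
  congr 1
  ext u
  by_cases hu : 0 < u
  · rw [indicator_of_mem (by exact hu : u ∈ Ioi 0), max_eq_left hu.le, smul_eq_mul]
    push_cast
    rw [mul_comm, mul_assoc, ← Complex.exp_add]
    congr 2
    unfold vert
    push_cast
    ring
  · rw [indicator_of_notMem (by exact hu), max_eq_right (not_lt.mp hu)]
    simp

lemma integrable_phi {c : ℝ} (hc : 0 < c) :
    Integrable (fun u : ℝ => (((max u 0 * Real.exp (-(c * u)) : ℝ)) : ℂ)) := by
  have h := (integrable_indicator_iff (μ := volume) measurableSet_Ioi).mpr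
    (integrableOn_u_exp (a := (c : ℂ)) (by simpa using hc))
  refine h.congr (Eventually.of_forall (fun u => ?_))
  by_cases hu : 0 < u
  · simp only
    rw [indicator_of_mem (by exact hu : u ∈ Ioi 0), max_eq_left hu.le]
    push_cast
    rfl
  · simp only
    rw [indicator_of_notMem (by exact hu), max_eq_right (not_lt.mp hu)]
    simp

/-- Perron kernel. -/
theorem perron_kernel {c : ℝ} (hc : 1 ≤ c) (v : ℝ) :
    ∫ ξ : ℝ, cexp (((2 * π * ξ * v : ℝ) : ℂ) * I) / (vert c ξ) ^ 2 =
      ((max v 0 * Real.exp (-(c * v)) : ℝ) : ℂ) := by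
  have hc0 : 0 < c := by linarith
  have hcont : Continuous (fun u : ℝ => (((max u 0 * Real.exp (-(c * u)) : ℝ)) : ℂ)) := by
    fun_prop
  have hF : 𝓕 (fun u : ℝ => (((max u 0 * Real.exp (-(c * u)) : ℝ)) : ℂ)) =
      fun ξ : ℝ => 1 / (vert c ξ) ^ 2 := funext (fourier_phi hc0)
  have hint : Integrable (𝓕 (fun u : ℝ => (((max u 0 * Real.exp (-(c * u)) : ℝ)) : ℂ))) := by
    rw [hF]
    refine Integrable.mono' (integrable_inv_norm_vert_sq hc) ?_ ?_
    · apply Continuous.aestronglyMeasurable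
      apply Continuous.div continuous_const ((continuous_vert c).pow 2)
      intro ξ
      exact pow_ne_zero 2 (vert_ne_zero hc0 ξ)
    · refine Eventually.of_forall (fun ξ => ?_)
      rw [norm_div, norm_one, norm_pow, one_div]
  have h := congrFun (hcont.fourierInv_fourier_eq (integrable_phi hc0) hint) v
  rw [hF, Real.fourierInv_eq'] at h
  rw [← h]
  congr 1
  ext ξ
  rw [smul_eq_mul, mul_one_div]
  congr 2
  simp only [RCLike.inner_apply, conj_trivial]
  push_cast
  ring

/-- The Perron formula for `log_+`. -/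
theorem perron_sum (a : ℕ → ℂ) {c : ℝ} (hc : 1 ≤ c) (ha : LSeriesSummable a (c : ℂ)) {x : ℝ}
    (hx : 1 ≤ x) :
    ∑ n ∈ Finset.Icc 1 ⌊x⌋₊, a n * ((Real.log (x / n) : ℝ) : ℂ) =
      ((Real.exp (c * Real.log x) : ℝ) : ℂ) * ∫ ξ : ℝ,
        LSeries a (vert c ξ) / (vert c ξ) ^ 2 *
          cexp (((2 * π * ξ * Real.log x : ℝ) : ℂ) * I) := by
  have hc0 : 0 < c := by linarith
  have hx0 : 0 < x := by linarith
  set F : ℕ → ℝ → ℂ := fun n ξ => LSeries.term a (vert c ξ) n / (vert c ξ) ^ 2 *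
          cexp (((2 * π * ξ * Real.log x : ℝ) : ℂ) * I) with hF
  have hterm : ∀ n ξ, F n ξ = LSeries.term a (c : ℂ) n *
      (cexp (((2 * π * ξ * (Real.log x - Real.log n) : ℝ) : ℂ) * I) / (vert c ξ) ^ 2) := by
    intro n ξ
    simp only [hF]
    rcases Nat.eq_zero_or_pos n with rfl | hn
    · simp
    · rw [LSeries.term_of_ne_zero hn.ne', LSeries.term_of_ne_zero hn.ne']
      have hn' : (0 : ℝ) < n := by exact_mod_cast hn
      have hnc : (n : ℂ) ≠ 0 := by exact_mod_cast hn.ne'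
      have h1 : (n : ℂ) ^ (vert c ξ) = (n : ℂ) ^ (c : ℂ) *
          cexp (((2 * π * ξ * Real.log n : ℝ) : ℂ) * I) := by
        unfold vert
        rw [Complex.cpow_add _ _ hnc]
        congr 1
        rw [Complex.cpow_def_of_ne_zero hnc, ← Complex.natCast_log]
        congr 1
        push_cast
        ring
      have h2 : cexp (((2 * π * ξ * (Real.log x - Real.log n) : ℝ) : ℂ) * I) =
          cexp (((2 * π * ξ * Real.log x : ℝ) : ℂ) * I) /
            cexp (((2 * π * ξ * Real.log n : ℝ) : ℂ) * I) := by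
        rw [← Complex.exp_sub]
        congr 1
        push_cast
        ring
      rw [h1, h2]
      have h3 : (n : ℂ) ^ (c : ℂ) ≠ 0 := by
        rw [Complex.cpow_def_of_ne_zero hnc]; exact Complex.exp_ne_zero _
      have h4 := Complex.exp_ne_zero (((2 * π * ξ * Real.log n : ℝ) : ℂ) * I)
      have h5 := vert_ne_zero hc0 ξ
      field_simp
  have hnorm : ∀ n ξ, ‖F n ξ‖ = ‖LSeries.term a (c : ℂ) n‖ * (‖vert c ξ‖ ^ 2)⁻¹ := by
    intro n ξ
    rw [hterm, norm_mul, norm_div, Complex.norm_exp_ofReal_mul_I, norm_pow, one_div]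
  have hFint : ∀ n, Integrable (F n) := by
    intro n
    refine Integrable.mono' ((integrable_inv_norm_vert_sq hc).const_mul
      ‖LSeries.term a (c : ℂ) n‖) ?_ ?_
    · apply Continuous.aestronglyMeasurable
      have : F n = fun ξ => LSeries.term a (c : ℂ) n *
        (cexp (((2 * π * ξ * (Real.log x - Real.log n) : ℝ) : ℂ) * I) / (vert c ξ) ^ 2) :=
        funext (hterm n)
      rw [this]
      apply Continuous.mul continuous_const
      apply Continuous.div _ ((continuous_vert c).pow 2)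
      · intro ξ
        exact pow_ne_zero 2 (vert_ne_zero hc0 ξ)
      · fun_prop
    · exact Eventually.of_forall (fun ξ => (hnorm n ξ).le)
  have hFsum : Summable (fun n => ∫ ξ, ‖F n ξ‖) := by
    simp only [hnorm, integral_const_mul]
    exact ha.norm.mul_right _
  have hmain := hasSum_integral_of_summable_integral_norm hFint hFsum
  have hI : ∀ n, ∫ ξ, F n ξ = ((Real.exp (-(c * Real.log x)) : ℝ) : ℂ) *
      (if 1 ≤ n ∧ (n : ℝ) ≤ x then a n * ((Real.log (x / n) : ℝ) : ℂ) else 0) := by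
    intro n
    have h1 : ∫ ξ, F n ξ = LSeries.term a (c : ℂ) n *
        ∫ ξ : ℝ, (cexp (((2 * π * ξ * (Real.log x - Real.log n) : ℝ) : ℂ) * I) /
          (vert c ξ) ^ 2) := by
      simp only [hterm]
      rw [integral_const_mul]
    rw [h1, perron_kernel hc]
    rcases Nat.eq_zero_or_pos n with rfl | hn
    · simp
    · rw [LSeries.term_of_ne_zero hn.ne']
      have hn' : (0 : ℝ) < n := by exact_mod_cast hn
      have hnc : (n : ℂ) ≠ 0 := by exact_mod_cast hn.ne'
      have hlog : Real.log x - Real.log n = Real.log (x / n) :=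
        (Real.log_div hx0.ne' hn'.ne').symm
      by_cases hnx : (n : ℝ) ≤ x
      · rw [if_pos ⟨hn, hnx⟩, max_eq_left (sub_nonneg.mpr (Real.log_le_log hn' hnx)), hlog]
        have h2 : (n : ℂ) ^ (c : ℂ) = ((Real.exp (c * Real.log n) : ℝ) : ℂ) := by
          rw [Complex.cpow_def_of_ne_zero hnc, ← Complex.natCast_log]
          push_cast
          congr 1
          ring
        have h3 : Real.exp (-(c * Real.log (x / n))) =
            Real.exp (-(c * Real.log x)) * Real.exp (c * Real.log n) := by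
          rw [← Real.exp_add, ← hlog]; congr 1; ring
        rw [h2, h3]
        have h4 : ((Real.exp (c * Real.log n) : ℝ) : ℂ) ≠ 0 := by
          exact_mod_cast (Real.exp_pos _).ne'
        push_cast at h4 ⊢
        field_simp
      · rw [if_neg (fun h => hnx h.2), max_eq_right]
        · simp
        · rw [sub_nonpos]
          exact Real.log_le_log hx0 (not_le.mp hnx).le
  have hS : HasSum (fun n => ∫ ξ, F n ξ) (((Real.exp (-(c * Real.log x)) : ℝ) : ℂ) *
      ∑ n ∈ Finset.Icc 1 ⌊x⌋₊, a n * ((Real.log (x / n) : ℝ) : ℂ)) := by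
    simp only [hI]
    apply HasSum.mul_left
    have : ∑ n ∈ Finset.Icc 1 ⌊x⌋₊, a n * ((Real.log (x / n) : ℝ) : ℂ) =
        ∑ n ∈ Finset.Icc 1 ⌊x⌋₊,
          (if 1 ≤ n ∧ (n : ℝ) ≤ x then a n * ((Real.log (x / n) : ℝ) : ℂ) else 0) := by
      apply Finset.sum_congr rfl
      intro n hn
      rw [Finset.mem_Icc] at hn
      rw [if_pos ⟨hn.1, (Nat.le_floor_iff hx0.le).mp hn.2⟩]
    rw [this]
    apply hasSum_sum_of_ne_finset_zero
    intro n hn
    rw [if_neg]
    rintro ⟨h1, h2⟩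
    exact hn (Finset.mem_Icc.mpr ⟨h1, Nat.le_floor h2⟩)
  have hfin := hS.unique hmain
  have hI2 : (∫ ξ : ℝ, LSeries a (vert c ξ) / (vert c ξ) ^ 2 *
          cexp (((2 * π * ξ * Real.log x : ℝ) : ℂ) * I)) = ∫ ξ, ∑' n, F n ξ := by
    congr 1
    ext ξ
    simp only [hF, tsum_mul_right, tsum_div_const]
    rfl
  rw [hI2, ← hfin, ← mul_assoc, ← ofReal_mul, ← Real.exp_add]
  simp

end Pool.Agent.H379R2.SW
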