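import Mathlib

/-!
Block sums and bounds near the line `Re s = 1` for L-functions of periodic functions with
mean value zero.
-/

set_option autoImplicit false

open Complex Filter Topology Finset

namespace Pool.Agent.H379R2.SW

variable {q : ℕ} [NeZero q]

/-- The `m`-th block sum. -/
noncomputable def blk (Φ : ZMod q → ℂ) (m : ℕ) (s : ℂ) : ℂ :=
  ∑ j ∈ range q, Φ ((m * q + 1 + j : ℕ) : ZMod q) * (((m * q + 1 + j : ℕ) : ℝ) : ℂ) ^ (-s)

lemma sum_block (Φ : ZMod q → ℂ) (m : ℕ) :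
    ∑ j ∈ range q, Φ ((m * q + 1 + j : ℕ) : ZMod q) = ∑ j, Φ j := by
  refine Finset.sum_nbij' (fun j => ((m * q + 1 + j : ℕ) : ZMod q)) (fun z => (z - 1).val)
    ?_ ?_ ?_ ?_ ?_
  · intro j _; exact mem_univ _
  · intro z _; exact mem_range.mpr (ZMod.val_lt _)
  · intro j hj
    have hj' := mem_range.mp hj
    have : (((m * q + 1 + j : ℕ) : ZMod q) - 1) = (j : ZMod q) := by
      push_cast
      simp
    rw [this, ZMod.val_natCast_of_lt hj']
  · intro z _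
    push_cast
    rw [ZMod.natCast_zmod_val]
    simp
  · intro j _; rfl

lemma cpow_diff {a b : ℝ} (ha : 0 < a) (hab : a ≤ b) {s : ℂ} (hs : 0 ≤ s.re) :
    ‖(b : ℂ) ^ (-s) - (a : ℂ) ^ (-s)‖ ≤ ‖s‖ * a ^ (-s.re - 1) * (b - a) := by
  have h := norm_image_sub_le_of_norm_deriv_le_segment_01' (f := fun t : ℝ =>
    ((a + t * (b - a) : ℝ) : ℂ) ^ (-s))
    (f' := fun t : ℝ => (-s) * ((a + t * (b - a) : ℝ) : ℂ) ^ (-s - 1) * ((b - a : ℝ) : ℂ))
    (C := ‖s‖ * a ^ (-s.re - 1) * (b - a)) ?_ ?_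
  · simpa using h
  · intro t ht
    have hpos : 0 < a + t * (b - a) := by
      have := mul_nonneg ht.1 (sub_nonneg.mpr hab)
      linarith
    apply HasDerivAt.hasDerivWithinAt
    have h1 : HasDerivAt (fun y : ℝ => ((a + y * (b - a) : ℝ) : ℂ)) ((b - a : ℝ) : ℂ) t := by
      apply HasDerivAt.ofReal_comp
      have := ((hasDerivAt_id t).mul_const (b - a)).const_add a
      simpa using this
    have h3 : HasDerivAt (fun z : ℂ => z ^ (-s))
        ((-s) * ((a + t * (b - a) : ℝ) : ℂ) ^ (-s - 1)) ((a + t * (b - a) : ℝ) : ℂ) := by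
      have := (hasDerivAt_id (((a + t * (b - a) : ℝ) : ℂ))).cpow_const (c := -s)
        (Or.inl (by rw [id]; exact_mod_cast hpos))
      simpa using this
    exact h3.comp t h1
  · intro t ht
    have hpos : 0 < a + t * (b - a) := by
      have := mul_nonneg ht.1 (sub_nonneg.mpr hab)
      linarith
    have hle : a ≤ a + t * (b - a) := by
      have := mul_nonneg ht.1 (sub_nonneg.mpr hab)
      linarith
    rw [norm_mul, norm_mul, norm_neg, norm_cpow_eq_rpow_re_of_pos hpos, Complex.norm_real,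
      Real.norm_of_nonneg (sub_nonneg.mpr hab)]
    apply mul_le_mul_of_nonneg_right _ (sub_nonneg.mpr hab)
    apply mul_le_mul_of_nonneg_left _ (norm_nonneg s)
    have : (-s - 1 : ℂ).re = -s.re - 1 := by simp
    rw [this]
    exact Real.rpow_le_rpow_of_nonpos ha hle (by linarith)

lemma blk_norm_le (Φ : ZMod q → ℂ) (hΦ : ∀ j, ‖Φ j‖ ≤ 1) (h0 : ∑ j, Φ j = 0) (m : ℕ) {s : ℂ}
    (hs : 0 ≤ s.re) :
    ‖blk Φ m s‖ ≤ (q : ℝ) ^ 2 * ‖s‖ * ((m * q + 1 : ℕ) : ℝ) ^ (-s.re - 1) := by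
  have h1 : blk Φ m s = ∑ j ∈ range q, Φ ((m * q + 1 + j : ℕ) : ZMod q) *
      ((((m * q + 1 + j : ℕ) : ℝ) : ℂ) ^ (-s) - (((m * q + 1 : ℕ) : ℝ) : ℂ) ^ (-s)) := by
    simp only [mul_sub, sum_sub_distrib, ← sum_mul]
    rw [sum_block, h0, zero_mul, sub_zero]
    rfl
  rw [h1]
  have hpos : (0 : ℝ) < ((m * q + 1 : ℕ) : ℝ) := by positivity
  calc ‖∑ j ∈ range q, Φ ((m * q + 1 + j : ℕ) : ZMod q) *
      ((((m * q + 1 + j : ℕ) : ℝ) : ℂ) ^ (-s) - (((m * q + 1 : ℕ) : ℝ) : ℂ) ^ (-s))‖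
      ≤ ∑ j ∈ range q, ‖s‖ * ((m * q + 1 : ℕ) : ℝ) ^ (-s.re - 1) * q := by
        refine norm_sum_le_of_le _ (fun j hj => ?_)
        rw [norm_mul]
        have hj' : (j : ℝ) ≤ q := by exact_mod_cast (mem_range.mp hj).le
        have h2 := cpow_diff (a := ((m * q + 1 : ℕ) : ℝ)) (b := ((m * q + 1 + j : ℕ) : ℝ)) hpos
          (by push_cast; linarith [Nat.cast_nonneg (α := ℝ) j]) hs
        have h3 : ((m * q + 1 + j : ℕ) : ℝ) - ((m * q + 1 : ℕ) : ℝ) = j := by push_cast; ring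
        rw [h3] at h2
        have h4 : (0 : ℝ) ≤ ‖s‖ * ((m * q + 1 : ℕ) : ℝ) ^ (-s.re - 1) := by positivity
        calc _ ≤ 1 * (‖s‖ * ((m * q + 1 : ℕ) : ℝ) ^ (-s.re - 1) * j) :=
              mul_le_mul (hΦ _) h2 (norm_nonneg _) zero_le_one
          _ ≤ ‖s‖ * ((m * q + 1 : ℕ) : ℝ) ^ (-s.re - 1) * q := by
              rw [one_mul]
              exact mul_le_mul_of_nonneg_left hj' h4
    _ = (q : ℝ) ^ 2 * ‖s‖ * ((m * q + 1 : ℕ) : ℝ) ^ (-s.re - 1) := by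
        rw [sum_const, card_range, nsmul_eq_mul]
        ring

/-- Telescoping bound. -/
lemma rpow_tele {a : ℝ} (ha : 1 / 2 ≤ a) (ha1 : a ≤ 1) {k : ℕ} (hk : 1 ≤ k) :
    (k : ℝ) ^ (-a - 1) ≤ 8 * ((k : ℝ) ^ (-a) - ((k + 1 : ℕ) : ℝ) ^ (-a)) := by
  have hk' : (1 : ℝ) ≤ k := by exact_mod_cast hk
  have hk0 : (0 : ℝ) < k := by linarith
  have hk1 : (0 : ℝ) < (k : ℝ) + 1 := by linarith
  push_cast
  -- lower bound for the ratio
  have h1 : 1 + a / ((k : ℝ) + 1) ≤ (((k : ℝ) + 1) / k) ^ a := by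
    have h2 : ((k : ℝ) + 1)⁻¹ ≤ Real.log (((k : ℝ) + 1) / k) := by
      have := Real.one_sub_inv_le_log_of_pos (x := ((k : ℝ) + 1) / k) (by positivity)
      have h3 : 1 - (((k : ℝ) + 1) / k)⁻¹ = ((k : ℝ) + 1)⁻¹ := by
        field_simp
        ring
      linarith
    rw [Real.rpow_def_of_pos (by positivity)]
    have h4 := Real.add_one_le_exp (Real.log (((k : ℝ) + 1) / k) * a)
    have h5 : a / ((k : ℝ) + 1) ≤ Real.log (((k : ℝ) + 1) / k) * a := by
      rw [div_eq_mul_inv, mul_comm]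
      exact mul_le_mul_of_nonneg_right h2 (by linarith)
    linarith
  have h6 : (k : ℝ) ^ (-a) = ((k : ℝ) + 1) ^ (-a) * ((((k : ℝ) + 1) / k) ^ a) := by
    rw [Real.div_rpow hk1.le hk0.le, Real.rpow_neg hk1.le, Real.rpow_neg hk0.le]
    have : ((k : ℝ) + 1) ^ a ≠ 0 := (Real.rpow_pos_of_pos hk1 a).ne'
    field_simp
  have hp : 0 < ((k : ℝ) + 1) ^ (-a) := Real.rpow_pos_of_pos hk1 _
  have h7 : ((k : ℝ) + 1) ^ (-a) * (a / ((k : ℝ) + 1)) ≤ (k : ℝ) ^ (-a) - ((k : ℝ) + 1) ^ (-a) := by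
    rw [h6]
    nlinarith
  have h8 : (k : ℝ) ^ (-a - 1) ≤ 4 * ((k : ℝ) + 1) ^ (-a - 1) := by
    have h9 : ((2 : ℝ) * k) ^ (-a - 1) ≤ ((k : ℝ) + 1) ^ (-a - 1) :=
      Real.rpow_le_rpow_of_nonpos hk1 (by linarith) (by linarith)
    rw [Real.mul_rpow (by norm_num) hk0.le] at h9
    have h10 : (1 / 4 : ℝ) ≤ (2 : ℝ) ^ (-a - 1) := by
      calc (1 / 4 : ℝ) = (2 : ℝ) ^ (-2 : ℝ) := by
            rw [Real.rpow_neg (by norm_num)]; norm_num
        _ ≤ (2 : ℝ) ^ (-a - 1) := Real.rpow_le_rpow_of_exponent_le (by norm_num) (by linarith)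
    have h11 : 0 < (k : ℝ) ^ (-a - 1) := Real.rpow_pos_of_pos hk0 _
    nlinarith
  have h12 : ((k : ℝ) + 1) ^ (-a - 1) = ((k : ℝ) + 1) ^ (-a) / ((k : ℝ) + 1) := by
    rw [Real.rpow_sub_one hk1.ne']
  rw [h12] at h8
  have h13 : ((k : ℝ) + 1) ^ (-a) / ((k : ℝ) + 1) ≤
      2 * (((k : ℝ) + 1) ^ (-a) * (a / ((k : ℝ) + 1))) := by
    have : 2 * (((k : ℝ) + 1) ^ (-a) * (a / ((k : ℝ) + 1))) =
      (2 * a) * (((k : ℝ) + 1) ^ (-a) / ((k : ℝ) + 1)) := by ring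
    rw [this]
    have h14 : 0 < ((k : ℝ) + 1) ^ (-a) / ((k : ℝ) + 1) := by positivity
    nlinarith
  linarith

lemma sum_tail {a : ℝ} (ha : 1 / 2 ≤ a) (ha1 : a ≤ 1) {M : ℕ} (hM : 1 ≤ M) (n : ℕ) :
    ∑ m ∈ range n, ((m + M : ℕ) : ℝ) ^ (-a - 1) ≤ 8 * (M : ℝ) ^ (-a) := by
  have h : ∑ m ∈ range n, ((m + M : ℕ) : ℝ) ^ (-a - 1) ≤
      8 * ((M : ℝ) ^ (-a) - ((n + M : ℕ) : ℝ) ^ (-a)) := by
    induction n with
    | zero => simp
    | succ n ih =>
      rw [sum_range_succ]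
      have := rpow_tele ha ha1 (k := n + M) (by omega)
      have h2 : ((n + 1 + M : ℕ) : ℝ) = ((n + M + 1 : ℕ) : ℝ) := by push_cast; ring
      rw [h2]
      linarith
  have h2 : 0 ≤ ((n + M : ℕ) : ℝ) ^ (-a) := by positivity
  linarith

lemma summable_tail {a : ℝ} (ha : 1 / 2 ≤ a) (ha1 : a ≤ 1) {M : ℕ} (hM : 1 ≤ M) :
    Summable (fun m : ℕ => ((m + M : ℕ) : ℝ) ^ (-a - 1)) :=
  summable_of_sum_range_le (fun _ => by positivity) (sum_tail ha ha1 hM)

lemma tsum_tail_le {a : ℝ} (ha : 1 / 2 ≤ a) (ha1 : a ≤ 1) {M : ℕ} (hM : 1 ≤ M) :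
    ∑' m : ℕ, ((m + M : ℕ) : ℝ) ^ (-a - 1) ≤ 8 * (M : ℝ) ^ (-a) :=
  Real.tsum_le_of_sum_range_le (fun _ => by positivity) (sum_tail ha ha1 hM)

/-- bound of a block in terms of `(m+1)`-type quantities -/
lemma blk_norm_le' (Φ : ZMod q → ℂ) (hΦ : ∀ j, ‖Φ j‖ ≤ 1) (h0 : ∑ j, Φ j = 0) {m : ℕ}
    (hm : 1 ≤ m) {s : ℂ} {a : ℝ} (ha : 1 / 2 ≤ a) (hs : a ≤ s.re) :
    ‖blk Φ m s‖ ≤ (q : ℝ) ^ (1 - a) * ‖s‖ * (m : ℝ) ^ (-a - 1) := by
  have hq : (1 : ℝ) ≤ q := by exact_mod_cast NeZero.one_le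
  have hm' : (1 : ℝ) ≤ m := by exact_mod_cast hm
  have hmq : (1 : ℝ) ≤ (m : ℝ) * q := by nlinarith
  refine (blk_norm_le Φ hΦ h0 m (by linarith)).trans ?_
  have h1 : ((m * q + 1 : ℕ) : ℝ) ^ (-s.re - 1) ≤ ((m : ℝ) * q) ^ (-a - 1) := by
    calc ((m * q + 1 : ℕ) : ℝ) ^ (-s.re - 1) ≤ ((m : ℝ) * q) ^ (-s.re - 1) := by
          apply Real.rpow_le_rpow_of_nonpos (by linarith) _ (by linarith)
          push_cast; linarith
      _ ≤ ((m : ℝ) * q) ^ (-a - 1) := Real.rpow_le_rpow_of_exponent_le hmq (by linarith)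
  calc (q : ℝ) ^ 2 * ‖s‖ * ((m * q + 1 : ℕ) : ℝ) ^ (-s.re - 1)
      ≤ (q : ℝ) ^ 2 * ‖s‖ * ((m : ℝ) * q) ^ (-a - 1) := by
        apply mul_le_mul_of_nonneg_left h1 (by positivity)
    _ = (q : ℝ) ^ (1 - a) * ‖s‖ * (m : ℝ) ^ (-a - 1) := by
        rw [Real.mul_rpow (by linarith) (by linarith)]
        have h2 : (q : ℝ) ^ (1 - a) = (q : ℝ) ^ 2 * (q : ℝ) ^ (-a - 1) := by
          rw [← Real.rpow_two, ← Real.rpow_add (by linarith)]
          congr 1; ring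
        rw [h2]; ring

lemma summable_blk (Φ : ZMod q → ℂ) (hΦ : ∀ j, ‖Φ j‖ ≤ 1) (h0 : ∑ j, Φ j = 0) {s : ℂ}
    (hs : 1 / 2 ≤ s.re) : Summable (fun m => blk Φ m s) := by
  rw [← summable_nat_add_iff 1]
  refine Summable.of_norm_bounded
    (g := fun m : ℕ => (q : ℝ) ^ (1 - 1 / 2 : ℝ) * ‖s‖ * ((m + 1 : ℕ) : ℝ) ^ (-(1 / 2 : ℝ) - 1))
    ((summable_tail (a := 1 / 2) le_rfl (by norm_num) le_rfl).mul_left _) (fun m => ?_)
  exact blk_norm_le' Φ hΦ h0 (by omega) le_rfl hs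

omit [NeZero q] in
lemma partial_sum_eq (Φ : ZMod q → ℂ) (M : ℕ) (s : ℂ) :
    ∑ n ∈ range (M * q + 1), LSeries.term (fun n => Φ (n : ZMod q)) s n =
      ∑ m ∈ range M, blk Φ m s := by
  induction M with
  | zero => simp
  | succ M ih =>
    conv_rhs => rw [sum_range_succ, ← ih]
    have h1 : (M + 1) * q + 1 = (M * q + 1) + q := by ring
    rw [h1, Finset.sum_range_add]
    congr 1
    unfold blk
    apply sum_congr rfl
    intro j _
    rw [LSeries.term_of_ne_zero (by omega), cpow_neg, div_eq_mul_inv]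
    push_cast
    rfl

lemma LFunction_eq_tsum_of_one_lt (Φ : ZMod q → ℂ) (hΦ : ∀ j, ‖Φ j‖ ≤ 1) (h0 : ∑ j, Φ j = 0)
    {s : ℂ} (hs : 1 < s.re) : ZMod.LFunction Φ s = ∑' m, blk Φ m s := by
  rw [ZMod.LFunction_eq_LSeries Φ hs]
  have h1 : Tendsto (fun M : ℕ => ∑ n ∈ range (M * q + 1),
      LSeries.term (fun n => Φ (n : ZMod q)) s n) atTop
      (𝓝 (LSeries (fun n => Φ (n : ZMod q)) s)) := by
    have h2 := (ZMod.LSeriesSummable_of_one_lt_re Φ hs).hasSum.tendsto_sum_nat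
    refine h2.comp (f := fun M : ℕ => M * q + 1) ?_
    apply tendsto_atTop_mono (fun M => ?_) tendsto_id
    have := NeZero.one_le (n := q)
    simp only [id]
    nlinarith
  have h3 : Tendsto (fun M : ℕ => ∑ m ∈ range M, blk Φ m s) atTop (𝓝 (∑' m, blk Φ m s)) :=
    (summable_blk Φ hΦ h0 (by linarith)).hasSum.tendsto_sum_nat
  refine tendsto_nhds_unique h1 ?_
  simpa only [partial_sum_eq] using h3

omit [NeZero q] in
lemma blk_differentiable (Φ : ZMod q → ℂ) (m : ℕ) : Differentiable ℂ (blk Φ m) := by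
  unfold blk
  intro s
  apply DifferentiableAt.fun_sum
  intro j _
  apply DifferentiableAt.const_mul
  have hne : (((m * q + 1 + j : ℕ) : ℝ) : ℂ) ≠ 0 := by
    have : (0 : ℝ) < ((m * q + 1 + j : ℕ) : ℝ) := by positivity
    exact_mod_cast this.ne'
  exact (differentiable_neg.differentiableAt).const_cpow (Or.inl hne)

lemma tsum_blk_differentiableAt (Φ : ZMod q → ℂ) (hΦ : ∀ j, ‖Φ j‖ ≤ 1) (h0 : ∑ j, Φ j = 0)
    {s : ℂ} (hs : 1 / 2 < s.re) : DifferentiableAt ℂ (fun s => ∑' m, blk Φ m s) s := by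
  set U : Set ℂ := {w | 1 / 2 < w.re} ∩ Metric.ball 0 (‖s‖ + 1) with hU
  have hUo : IsOpen U := (isOpen_lt continuous_const continuous_re).inter Metric.isOpen_ball
  have hsU : s ∈ U := ⟨hs, by simp⟩
  have h1 : DifferentiableOn ℂ (fun s => ∑' m : ℕ, blk Φ m s) U := by
    have hb : Summable (fun m : ℕ => (q : ℝ) ^ 2 * (‖s‖ + 1) * ((m * q + 1 : ℕ) : ℝ) ^
        (-(1 / 2 : ℝ) - 1)) := by
      apply Summable.mul_left
      refine Summable.of_nonneg_of_le (fun m => by positivity) (fun m => ?_)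
        (summable_tail (a := 1 / 2) le_rfl (by norm_num) (M := 1) le_rfl)
      apply Real.rpow_le_rpow_of_nonpos (by positivity) _ (by norm_num)
      have h2 : (1 : ℝ) ≤ q := by exact_mod_cast NeZero.one_le
      push_cast
      nlinarith [Nat.cast_nonneg (α := ℝ) m]
    refine differentiableOn_tsum_of_summable_norm hb
      (fun m => (blk_differentiable Φ m).differentiableOn) hUo (fun m w hw => ?_)
    have hw1 : 1 / 2 < w.re := hw.1
    have hw2 : ‖w‖ ≤ ‖s‖ + 1 := by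
      have := hw.2
      rw [Metric.mem_ball, dist_zero_right] at this
      exact this.le
    refine (blk_norm_le Φ hΦ h0 m (by linarith)).trans ?_
    apply mul_le_mul
    · exact mul_le_mul_of_nonneg_left hw2 (by positivity)
    · apply Real.rpow_le_rpow_of_exponent_le _ (by linarith)
      push_cast
      have : (0 : ℝ) ≤ (m : ℝ) * q := by positivity
      linarith
    · positivity
    · positivity
  exact h1.differentiableAt (hUo.mem_nhds hsU)

/-- The block series represents the L-function for `Re s > 1/2`. -/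
lemma LFunction_eq_tsum (Φ : ZMod q → ℂ) (hΦ : ∀ j, ‖Φ j‖ ≤ 1) (h0 : ∑ j, Φ j = 0)
    {s : ℂ} (hs : 1 / 2 < s.re) : ZMod.LFunction Φ s = ∑' m, blk Φ m s := by
  set V : Set ℂ := {w | 1 / 2 < w.re} with hV
  have hVo : IsOpen V := isOpen_lt continuous_const continuous_re
  have hVc : IsPreconnected V := (convex_halfSpace_re_gt (1 / 2)).isPreconnected
  have hf : AnalyticOnNhd ℂ (ZMod.LFunction Φ) V :=
    ((ZMod.differentiable_LFunction_of_sum_zero h0).differentiableOn).analyticOnNhd hVo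
  have hg : AnalyticOnNhd ℂ (fun s => ∑' m, blk Φ m s) V := by
    apply DifferentiableOn.analyticOnNhd _ hVo
    intro w hw
    exact (tsum_blk_differentiableAt Φ hΦ h0 hw).differentiableWithinAt
  have h2 : (2 : ℂ) ∈ V := by simp [hV]; norm_num
  have heq : ZMod.LFunction Φ =ᶠ[𝓝 2] (fun s => ∑' m, blk Φ m s) := by
    have : {w : ℂ | 1 < w.re} ∈ 𝓝 (2 : ℂ) :=
      (isOpen_lt continuous_const continuous_re).mem_nhds (by simp)
    filter_upwards [this] with w hw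
    exact LFunction_eq_tsum_of_one_lt Φ hΦ h0 hw
  exact hf.eqOn_of_preconnected_of_eventuallyEq hg hVc h2 heq hs

/-- General bound. -/
lemma LFunction_norm_le_aux (Φ : ZMod q → ℂ) (hΦ : ∀ j, ‖Φ j‖ ≤ 1) (h0 : ∑ j, Φ j = 0)
    {s : ℂ} {η : ℝ} (hη : 0 < η) (hη2 : η < 1 / 2) (hs : 1 - η ≤ s.re) {M : ℕ} (hM : 1 ≤ M)
    (hMs : ‖s‖ ≤ M) :
    ‖ZMod.LFunction Φ s‖ ≤ (9 + 1 / η) * ((M * q : ℕ) : ℝ) ^ (2 * η) := by
  have hq : (1 : ℝ) ≤ q := by exact_mod_cast NeZero.one_le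
  have hM' : (1 : ℝ) ≤ M := by exact_mod_cast hM
  set N : ℝ := ((M * q : ℕ) : ℝ) with hN
  have hNe : N = (M : ℝ) * q := by rw [hN]; push_cast; ring
  have hN1 : 1 ≤ N := by rw [hNe]; nlinarith
  rw [LFunction_eq_tsum Φ hΦ h0 (by linarith)]
  have hsum := summable_blk Φ hΦ h0 (s := s) (by linarith)
  rw [← hsum.sum_add_tsum_nat_add M]
  refine (norm_add_le _ _).trans ?_
  -- first part
  have h1 : ‖∑ m ∈ range M, blk Φ m s‖ ≤ N ^ η * (1 + Real.log N) := by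
    rw [← partial_sum_eq]
    calc ‖∑ n ∈ range (M * q + 1), LSeries.term (fun n => Φ (n : ZMod q)) s n‖
        ≤ ∑ n ∈ range (M * q + 1), N ^ η * ((n : ℝ)⁻¹) := by
          refine norm_sum_le_of_le _ (fun n hn => ?_)
          rcases Nat.eq_zero_or_pos n with rfl | hn0
          · simp
          · rw [LSeries.term_of_ne_zero hn0.ne', norm_div, norm_natCast_cpow_of_pos hn0]
            have hn' : (1 : ℝ) ≤ n := by exact_mod_cast hn0
            have hnN : (n : ℝ) ≤ N := by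
              have := mem_range.mp hn
              rw [hN]
              exact_mod_cast Nat.lt_succ_iff.mp this
            have h2 : (n : ℝ) ^ (1 - η) ≤ (n : ℝ) ^ s.re :=
              Real.rpow_le_rpow_of_exponent_le hn' hs
            have h3 : 0 < (n : ℝ) ^ (1 - η) := Real.rpow_pos_of_pos (by linarith) _
            calc ‖Φ n‖ / (n : ℝ) ^ s.re ≤ 1 / (n : ℝ) ^ (1 - η) :=
                  div_le_div₀ zero_le_one (hΦ _) h3 h2
              _ = (n : ℝ) ^ η * (n : ℝ)⁻¹ := by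
                  rw [Real.rpow_sub (by linarith), Real.rpow_one]
                  field_simp
              _ ≤ N ^ η * (n : ℝ)⁻¹ := by
                  apply mul_le_mul_of_nonneg_right _ (by positivity)
                  exact Real.rpow_le_rpow (by linarith) hnN hη.le
      _ = N ^ η * ∑ n ∈ range (M * q + 1), ((n : ℝ)⁻¹) := by rw [mul_sum]
      _ ≤ N ^ η * (1 + Real.log N) := by
          apply mul_le_mul_of_nonneg_left _ (by positivity)
          have h4 := harmonic_le_one_add_log (M * q)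
          have h5 : ((harmonic (M * q) : ℚ) : ℝ) = ∑ n ∈ range (M * q + 1), ((n : ℝ)⁻¹) := by
            rw [harmonic, sum_range_succ']
            push_cast
            simp
          rw [← h5]
          exact h4
  have h6 : ‖∑' m, blk Φ (m + M) s‖ ≤ 8 * N ^ η := by
    have ha : (1 : ℝ) / 2 ≤ 1 - η := by linarith
    have ha1 : (1 : ℝ) - η ≤ 1 := by linarith
    have hb : ∀ m : ℕ, ‖blk Φ (m + M) s‖ ≤
        (q : ℝ) ^ η * ‖s‖ * ((m + M : ℕ) : ℝ) ^ (-(1 - η) - 1) := by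
      intro m
      have := blk_norm_le' Φ hΦ h0 (m := m + M) (by omega) ha hs
      simpa using this
    have hsm := (summable_tail ha ha1 hM).mul_left ((q : ℝ) ^ η * ‖s‖)
    calc ‖∑' m, blk Φ (m + M) s‖ ≤ ∑' m : ℕ, (q : ℝ) ^ η * ‖s‖ *
          ((m + M : ℕ) : ℝ) ^ (-(1 - η) - 1) := tsum_of_norm_bounded hsm.hasSum hb
      _ = (q : ℝ) ^ η * ‖s‖ * ∑' m : ℕ, ((m + M : ℕ) : ℝ) ^ (-(1 - η) - 1) := tsum_mul_left
      _ ≤ (q : ℝ) ^ η * M * (8 * (M : ℝ) ^ (-(1 - η))) := by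
          apply mul_le_mul _ (tsum_tail_le ha ha1 hM) (tsum_nonneg (fun _ => by positivity))
            (by positivity)
          exact mul_le_mul_of_nonneg_left hMs (by positivity)
      _ = 8 * N ^ η := by
          rw [hNe, Real.mul_rpow (by linarith) (by linarith)]
          have : (M : ℝ) ^ η = M * (M : ℝ) ^ (-(1 - η)) := by
            rw [← Real.rpow_one_add' (by linarith) (by linarith)]
            congr 1; ring
          rw [this]; ring
  have h7 : Real.log N ≤ N ^ η / η := Real.log_le_rpow_div (by linarith) hη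
  have h8 : 1 ≤ N ^ η := Real.one_le_rpow hN1 hη.le
  have h9 : N ^ (2 * η) = N ^ η * N ^ η := by rw [← Real.rpow_add (by linarith)]; congr 1; ring
  calc ‖∑ m ∈ range M, blk Φ m s‖ + ‖∑' m, blk Φ (m + M) s‖
      ≤ N ^ η * (1 + Real.log N) + 8 * N ^ η := add_le_add h1 h6
    _ ≤ N ^ η * (1 + N ^ η / η) + 8 * N ^ η := by
        have : 0 ≤ N ^ η := by positivity
        nlinarith
    _ ≤ (9 + 1 / η) * N ^ (2 * η) := by
        rw [h9]
        have h10 : 0 < 1 / η := by positivity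
        have h11 : N ^ η / η = N ^ η * (1 / η) := by ring
        rw [h11]
        nlinarith [mul_nonneg (sub_nonneg.mpr h8) (le_trans zero_le_one h8)]

/-- Bound for the L-function of a bounded periodic function with mean zero. -/
theorem LFunction_norm_le (Φ : ZMod q → ℂ) (hΦ : ∀ j, ‖Φ j‖ ≤ 1) (h0 : ∑ j, Φ j = 0)
    {s : ℂ} {η : ℝ} (hη : 0 < η) (hη2 : η < 1 / 2) (hs : 1 - η ≤ s.re) {N : ℝ}
    (hN : q * (‖s‖ + 2) ≤ N) :
    ‖ZMod.LFunction Φ s‖ ≤ (9 + 1 / η) * N ^ (2 * η) := by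
  have h1 := LFunction_norm_le_aux Φ hΦ h0 hη hη2 hs (M := ⌈‖s‖⌉₊ + 1) (by omega)
    (by push_cast; linarith [Nat.le_ceil ‖s‖])
  refine h1.trans ?_
  apply mul_le_mul_of_nonneg_left _ (by positivity)
  apply Real.rpow_le_rpow (by positivity) _ (by positivity)
  push_cast
  have h2 := Nat.ceil_lt_add_one (norm_nonneg s)
  have hq : (0 : ℝ) ≤ q := Nat.cast_nonneg q
  nlinarith

/-- Bounds for the derivatives. -/
theorem iteratedDeriv_LFunction_norm_le (Φ : ZMod q → ℂ) (hΦ : ∀ j, ‖Φ j‖ ≤ 1)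
    (h0 : ∑ j, Φ j = 0) (k : ℕ) {s : ℂ} {η : ℝ} (hη : 0 < η) (hη2 : η < 1 / 2)
    (hs : 1 ≤ s.re) {N : ℝ} (hN : q * (‖s‖ + 3) ≤ N) :
    ‖iteratedDeriv k (ZMod.LFunction Φ) s‖ ≤
      k.factorial * ((9 + 1 / η) * N ^ (2 * η)) / η ^ k := by
  have hd := ZMod.differentiable_LFunction_of_sum_zero h0
  refine norm_iteratedDeriv_le_of_forall_mem_sphere_norm_le k hη hd.diffContOnCl ?_
  intro z hz
  rw [mem_sphere_iff_norm] at hz
  have h1 : |(z - s).re| ≤ η := by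
    rw [← hz]; exact abs_re_le_norm _
  have h2 : 1 - η ≤ z.re := by
    rw [sub_re] at h1
    have := (abs_le.mp h1).1
    linarith
  have h3 : ‖z‖ ≤ ‖s‖ + 1 := by
    have : z = s + (z - s) := by ring
    rw [this]
    refine (norm_add_le _ _).trans ?_
    rw [hz]
    linarith
  apply LFunction_norm_le Φ hΦ h0 hη hη2 h2
  have hq : (0 : ℝ) ≤ q := Nat.cast_nonneg q
  nlinarith

end Pool.Agent.H379R2.SW
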